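import Mathlib

set_option autoImplicit false

namespace Pool.Agent.H.MP_64a558_lc

open Classical

/-- Vertices of the digraph attached to a relation: element, tuple, level, kind. -/
abbrev V (ι : Type) (r : ℕ) : Type := SignType × (ι → SignType) × Fin (r + 3) × Fin 3

variable {ι : Type} {r : ℕ}

/-- Edges of the digraph attached to the relation R. -/
def Adj (lv : ι → ℕ) (R : (ι → SignType) → Prop) (v w : V ι r) : Prop :=
  w.2.2.1.val = v.2.2.1.val + 1 ∧
    ((v.2.2.1.val = 0 ∧ v.2.1 = 0 ∧ v.2.2.2 = 0 ∧ w.2.2.2 = 0 ∧ w.1 = v.1 ∧ R w.2.1) ∨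
     (v.2.2.1.val = r + 1 ∧ v.2.2.2 = 0 ∧ w.2.2.2 = 0 ∧ w.2.1 = v.2.1 ∧ w.1 = 0 ∧ R v.2.1) ∨
     (1 ≤ v.2.2.1.val ∧ v.2.2.1.val ≤ r ∧ w.1 = v.1 ∧ w.2.1 = v.2.1 ∧ R v.2.1 ∧ v.2.2.2 ≠ 1 ∧
       w.2.2.2 ≠ 2 ∧ (v.2.2.2 = 0 → w.2.2.2 = 0 → ∀ i, lv i + 1 = v.2.2.1.val → v.2.1 i = v.1)))

/-- Polymorphisms of a digraph, of arity J. -/
def IsPol {W J : Type} (A : W → W → Prop) (g : (J → W) → W) : Prop :=
  ∀ x y : J → W, (∀ t, A (x t) (y t)) → A (g x) (g y)

/-- Operations preserving a relation. -/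
def Pres {J : Type} (R : (ι → SignType) → Prop) (f : (J → SignType) → SignType) : Prop :=
  ∀ ρ : J → ι → SignType, (∀ t, R (ρ t)) → R (fun i => f (fun t => ρ t i))

/-- The vertex of the gadget between a and ρ at level l of kind c. -/
def vert (r : ℕ) (a : SignType) (ρ : ι → SignType) (l : ℕ) (c : Fin 3) : V ι r :=
  (if l = r + 2 then 0 else a, if l = 0 then 0 else ρ, ⟨min l (r + 2), by omega⟩, c)

theorem gadget (lv : ι → ℕ) (R : (ι → SignType) → Prop) (σ : ℕ → V ι r)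
    (h0 : Adj lv R (σ 0) (σ 1)) (h1 : Adj lv R (σ (r + 1)) (σ (r + 2)))
    (h2 : ∀ l, 1 ≤ l → l ≤ r → ∃ U W, Adj lv R (σ l) U ∧ Adj lv R W U ∧ Adj lv R W (σ (l + 1))) :
    R (σ (r + 2)).2.1 ∧ ∀ i, lv i < r → Adj lv R (σ (lv i + 1)) (σ (lv i + 2)) →
      (σ (r + 2)).2.1 i = (σ 0).1 := by
  have hl : ∀ l, l ≤ r → (σ (l + 1)).2.2.1.val = (σ 0).2.2.1.val + (l + 1) := by
    intro l
    induction l with
    | zero => intro _; exact h0.1
    | succ l ih =>
      intro hl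
      obtain ⟨U, W, h3, h4, h5⟩ := h2 (l + 1) (by omega) hl
      have := ih (by omega)
      have := h3.1
      have := h4.1
      have := h5.1
      omega
  have hz : (σ 0).2.2.1.val = 0 := by
    have := hl r le_rfl
    have := h1.1
    have := (σ (r + 2)).2.2.1.isLt
    omega
  have hd : ∀ l, l ≤ r → (σ (l + 1)).1 = (σ 0).1 ∧ (σ (l + 1)).2.1 = (σ 1).2.1 ∧
      (σ (l + 1)).2.2.2 ≠ 2 := by
    intro l
    induction l with
    | zero =>
      intro _
      rcases h0.2 with h | h | h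
      · refine ⟨h.2.2.2.2.1, rfl, ?_⟩
        rw [h.2.2.2.1]; decide
      · omega
      · omega
    | succ l ih =>
      intro hl'
      obtain ⟨U, W, h3, h4, h5⟩ := h2 (l + 1) (by omega) hl'
      obtain ⟨i1, i2, -⟩ := ih (by omega)
      have e1 := hl l (by omega)
      have e2 := h3.1
      have e3 := h4.1
      rcases h3.2 with h | h | h3
      · omega
      · omega
      rcases h4.2 with h | h | h4
      · omega
      · omega
      rcases h5.2 with h | h | h5
      · omega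
      · omega
      refine ⟨?_, ?_, h5.2.2.2.2.2.2.1⟩
      · rw [h5.2.2.1, ← h4.2.2.1, h3.2.2.1, i1]
      · rw [h5.2.2.2.1, ← h4.2.2.2.1, h3.2.2.2.1, i2]
  have ht : (σ (r + 2)).2.1 = (σ (r + 1)).2.1 ∧ R (σ (r + 1)).2.1 ∧ (σ (r + 1)).2.2.2 = 0 := by
    have e1 := hl r le_rfl
    rcases h1.2 with h | h | h
    · omega
    · exact ⟨h.2.2.2.1, h.2.2.2.2.2, h.2.1⟩
    · omega
  have hc : ∀ l, l ≤ r → (σ (l + 1)).2.2.2 = 0 := by
    intro l hl'
    rcases hl'.lt_or_eq with h | rfl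
    · obtain ⟨U, W, h3, -, -⟩ := h2 (l + 1) (by omega) h
      have e1 := hl l hl'
      rcases h3.2 with h | h | h3
      · omega
      · omega
      have e2 := h3.2.2.2.2.2.1
      have e3 := (hd l hl').2.2
      revert e2 e3
      generalize (σ (l + 1)).2.2.2 = c
      revert c
      decide
    · exact ht.2.2
  refine ⟨ht.1 ▸ ht.2.1, ?_⟩
  intro i hi hA
  have e1 := hl (lv i) hi.le
  rcases hA.2 with h | h | h
  · omega
  · omega
  have e2 := h.2.2.2.2.2.2.2 (hc _ hi.le) (hc (lv i + 1) hi) i (by omega)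
  rw [ht.1, (hd r le_rfl).2.1, ← (hd _ hi.le).2.1, e2, (hd _ hi.le).1]

/-- The operation induced on the bottom level. -/
def ind {J : Type} (g : (J → V ι r) → V ι r) (c : J → SignType) : SignType :=
  (g (fun t => ((c t, 0, 0, 0) : V ι r))).1

theorem pres_ind {J : Type} (lv : ι → ℕ) (hlv : ∀ i, lv i < r) (hinj : Function.Injective lv)
    (R : (ι → SignType) → Prop) (g : (J → V ι r) → V ι r) (hg : IsPol (Adj lv R) g) :
    Pres R (ind g) := by
  intro ρ hρ
  have key : ∀ a : J → SignType, R (g (fun t => vert r 0 (ρ t) (r + 2) 0)).2.1 ∧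
      ∀ i, (∀ t, ρ t i = a t) → (g (fun t => vert r 0 (ρ t) (r + 2) 0)).2.1 i = ind g a := by
    intro a
    have h := gadget lv R (fun l => g (fun t => vert r (a t) (ρ t) l 0))
      (hg _ _ fun t => by simp [Adj, vert, hρ])
      (hg _ _ fun t => by simp [Adj, vert, hρ])
      (fun l h1 h2 => ⟨g (fun t => vert r (a t) (ρ t) (l + 1) 1),
        g (fun t => vert r (a t) (ρ t) l 2),
        hg _ _ fun t => ⟨by simp only [vert]; omega, Or.inr (Or.inr (by
          have e1 : l ≠ r + 2 := by omega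
          have e2 : l + 1 ≠ r + 2 := by omega
          have e3 : l ≠ 0 := by omega
          simp [vert, e1, e2, e3, hρ]
          omega))⟩,
        hg _ _ fun t => ⟨by simp only [vert]; omega, Or.inr (Or.inr (by
          have e1 : l ≠ r + 2 := by omega
          have e2 : l + 1 ≠ r + 2 := by omega
          have e3 : l ≠ 0 := by omega
          simp [vert, e1, e2, e3, hρ]
          omega))⟩,
        hg _ _ fun t => ⟨by simp only [vert]; omega, Or.inr (Or.inr (by
          have e1 : l ≠ r + 2 := by omega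
          have e2 : l + 1 ≠ r + 2 := by omega
          have e3 : l ≠ 0 := by omega
          simp [vert, e1, e2, e3, hρ]
          omega))⟩⟩)
    have e0 : (fun t => vert r (a t) (ρ t) (r + 2) 0) = fun t => vert r 0 (ρ t) (r + 2) 0 := by
      funext t; simp [vert]
    have e1 : (fun t => vert r (a t) (ρ t) 0 0) = fun t => ((a t, 0, 0, 0) : V ι r) := by
      funext t; simp [vert]
    simp only [e0, e1] at h
    refine ⟨h.1, fun i hi => h.2 i (hlv i) (hg _ _ fun t => ?_)⟩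
    have e2 := hlv i
    refine ⟨by simp only [vert]; omega, Or.inr (Or.inr ?_)⟩
    have e3 : lv i + 1 ≠ r + 2 := by omega
    have e4 : lv i + 2 ≠ r + 2 := by omega
    have e5 : min (lv i + 1) (r + 2) = lv i + 1 := by omega
    simp only [vert, e3, e4, e5, if_false, Nat.succ_ne_zero, hρ, true_and]
    refine ⟨by omega, by omega, by decide, by decide, fun _ _ j hj => ?_⟩
    have : j = i := hinj (by omega)
    rw [this, hi]
  have h2 : (fun i => ind g (fun t => ρ t i)) = (g (fun t => vert r 0 (ρ t) (r + 2) 0)).2.1 := by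
    funext i
    exact ((key _).2 i (fun t => rfl)).symm
  rw [h2]
  exact (key 0).1

/-- The lowest level met by a set of vertices. -/
noncomputable def mlev (S : Set (V ι r)) : Fin (r + 3) :=
  (epsilon (fun v : V ι r => v ∈ S ∧ ∀ w ∈ S, v.2.2.1 ≤ w.2.2.1)).2.2.1

theorem mlev_spec (S : Set (V ι r)) (hS : S.Nonempty) :
    (∃ v ∈ S, v.2.2.1 = mlev S) ∧ ∀ w ∈ S, mlev S ≤ w.2.2.1 := by
  have h : ∃ v : V ι r, v ∈ S ∧ ∀ w ∈ S, v.2.2.1 ≤ w.2.2.1 := by
    obtain ⟨v, hv, h⟩ := (measure (fun v : V ι r => v.2.2.1.val)).wf.has_min S hS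
    exact ⟨v, hv, fun w hw => not_lt.1 (h w hw)⟩
  have := epsilon_spec h
  exact ⟨⟨_, this.1, rfl⟩, this.2⟩

/-- A chosen element label on the lowest level. -/
noncomputable def selA (S : Set (V ι r)) : SignType :=
  epsilon (fun a => ∃ v ∈ S, v.2.2.1 = mlev S ∧ v.1 = a)

/-- A chosen tuple label on the lowest level. -/
noncomputable def selR (S : Set (V ι r)) : ι → SignType :=
  epsilon (fun ρ => ∃ v ∈ S, v.2.2.1 = mlev S ∧ v.1 = selA S ∧ v.2.1 = ρ)

theorem sel_spec (S : Set (V ι r)) (hS : S.Nonempty) :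
    ∃ v ∈ S, v.2.2.1 = mlev S ∧ v.1 = selA S ∧ v.2.1 = selR S := by
  obtain ⟨v, hv, h⟩ := (mlev_spec S hS).1
  have h1 : ∃ a, ∃ v ∈ S, v.2.2.1 = mlev S ∧ v.1 = a := ⟨_, v, hv, h, rfl⟩
  obtain ⟨w, hw, h2, h3⟩ := epsilon_spec h1
  have h4 : ∃ ρ, ∃ v ∈ S, v.2.2.1 = mlev S ∧ v.1 = selA S ∧ v.2.1 = ρ := ⟨_, w, hw, h2, h3, rfl⟩
  exact epsilon_spec h4

/-- The element label of the lifted value. -/
noncomputable def valA (f : (V ι r → SignType) → SignType) (S : Set (V ι r)) : SignType :=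
  if ∀ v ∈ S, v.2.2.1 = mlev S then f (fun v => v.1) else selA S

/-- The tuple label of the lifted value. -/
noncomputable def valR (f : (V ι r → SignType) → SignType) (S : Set (V ι r)) : ι → SignType :=
  if ∀ v ∈ S, v.2.2.1 = mlev S then (fun i => f (fun v => v.2.1 i)) else selR S

/-- The kind of the lifted value. -/
noncomputable def valC (S : Set (V ι r)) : Fin 3 :=
  if ∃ v ∈ S, v.2.2.1 = mlev S ∧ v.2.2.2 = 1 then 1
  else if ∃ v ∈ S, v.2.2.1 = mlev S ∧ v.2.2.2 = 2 then 2 else 0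

/-- The lifted value. -/
noncomputable def lift (f : (V ι r → SignType) → SignType) (S : Set (V ι r)) : V ι r :=
  (if (mlev S).val = r + 2 then 0 else valA f S, if (mlev S).val = 0 then 0 else valR f S,
    mlev S, valC S)

theorem lift_adj {J : Type} (lv : ι → ℕ) (R : (ι → SignType) → Prop)
    (f : (J → SignType) → SignType) (I : Set J) (hI : I.Nonempty)
    (hdep : ∀ c c' : J → SignType, (∀ t ∈ I, c t = c' t) → f c = f c') (hf : Pres R f)
    (x y : J → V ι r) (hxy : ∀ t ∈ I, Adj lv R (x t) (y t)) :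
    Adj lv R (lift (fun c => f (fun t => c (x t))) (x '' I))
      (lift (fun c => f (fun t => c (y t))) (y '' I)) := by
  have hS : (x '' I).Nonempty := hI.image x
  have hT : (y '' I).Nonempty := hI.image y
  have hm : (mlev (y '' I)).val = (mlev (x '' I)).val + 1 := by
    obtain ⟨⟨_, ⟨t0, ht0, rfl⟩, h0⟩, h1⟩ := mlev_spec _ hS
    obtain ⟨⟨_, ⟨t1, ht1, rfl⟩, h2⟩, h3⟩ := mlev_spec _ hT
    have e1 : (mlev (y '' I)).val ≤ (y t0).2.2.1.val := h3 _ ⟨t0, ht0, rfl⟩
    have e2 : (mlev (x '' I)).val ≤ (x t1).2.2.1.val := h1 _ ⟨t1, ht1, rfl⟩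
    have e3 := (hxy t0 ht0).1
    have e4 := (hxy t1 ht1).1
    rw [← h0] at e2 ⊢
    rw [← h2] at e1 ⊢
    omega
  have hI' : ∀ t ∈ I, ((y t).2.2.1 = mlev (y '' I) ↔ (x t).2.2.1 = mlev (x '' I)) := by
    intro t ht
    have e3 := (hxy t ht).1
    rw [Fin.ext_iff, Fin.ext_iff]
    omega
  have hpure : (∀ v ∈ y '' I, v.2.2.1 = mlev (y '' I)) ↔
      (∀ v ∈ x '' I, v.2.2.1 = mlev (x '' I)) := by
    simp only [Set.forall_mem_image]
    exact ⟨fun h t ht => (hI' t ht).1 (h ht), fun h t ht => (hI' t ht).2 (h ht)⟩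
  have hR : ∀ z : J → V ι r, (∀ t ∈ I, (z t).2.2.1 = mlev (z '' I) → R (z t).2.1) →
      R (valR (fun c => f (fun t => c (z t))) (z '' I)) := by
    intro z hz
    unfold valR
    split_ifs with h
    · obtain ⟨t0, ht0⟩ := hI
      have h1 := hf (fun t => if t ∈ I then (z t).2.1 else (z t0).2.1) (by
        intro t
        split_ifs with ht
        · exact hz t ht (h _ ⟨t, ht, rfl⟩)
        · exact hz t0 ht0 (h _ ⟨t0, ht0, rfl⟩))
      convert h1 using 2 with i
      apply hdep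
      intro t ht
      simp [ht]
    · obtain ⟨_, ⟨t, ht, rfl⟩, h1, -, h2⟩ := sel_spec _ (hI.image z)
      rw [← h2]
      exact hz t ht h1
  have hA : (∀ t ∈ I, (x t).2.2.1 = mlev (x '' I) → (y t).1 = (x t).1) →
      selA (y '' I) = selA (x '' I) ∧ valA (fun c => f (fun t => c (y t))) (y '' I) =
        valA (fun c => f (fun t => c (x t))) (x '' I) := by
    intro h
    have h1 : selA (y '' I) = selA (x '' I) := by
      unfold selA
      congr 1
      funext a
      apply propext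
      constructor
      · rintro ⟨_, ⟨t, ht, rfl⟩, h2, rfl⟩
        exact ⟨_, ⟨t, ht, rfl⟩, (hI' t ht).1 h2, (h t ht ((hI' t ht).1 h2)).symm⟩
      · rintro ⟨_, ⟨t, ht, rfl⟩, h2, rfl⟩
        exact ⟨_, ⟨t, ht, rfl⟩, (hI' t ht).2 h2, h t ht h2⟩
    refine ⟨h1, ?_⟩
    unfold valA
    by_cases hp : ∀ v ∈ x '' I, v.2.2.1 = mlev (x '' I)
    · rw [if_pos hp, if_pos (hpure.2 hp)]
      exact hdep _ _ (fun t ht => h t ht (hp _ ⟨t, ht, rfl⟩))
    · rw [if_neg hp, if_neg (fun h' => hp (hpure.1 h')), h1]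
  have hC0 : ∀ z : J → V ι r, (∀ t ∈ I, (z t).2.2.1 = mlev (z '' I) → (z t).2.2.2 = 0) →
      valC (z '' I) = 0 := by
    intro z hz
    unfold valC
    rw [if_neg, if_neg]
    · rintro ⟨_, ⟨t, ht, rfl⟩, h1, h2⟩
      rw [hz t ht h1] at h2
      exact absurd h2 (by decide)
    · rintro ⟨_, ⟨t, ht, rfl⟩, h1, h2⟩
      rw [hz t ht h1] at h2
      exact absurd h2 (by decide)
  have hC1 : ∀ z : J → V ι r, valC (z '' I) = 0 →
      ∀ t ∈ I, (z t).2.2.1 = mlev (z '' I) → (z t).2.2.2 = 0 := by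
    intro z hz t ht h1
    unfold valC at hz
    split_ifs at hz with h2 h3
    · exact absurd hz (by decide)
    · exact absurd hz (by decide)
    have e1 : (z t).2.2.2 ≠ 1 := fun h => h2 ⟨_, ⟨t, ht, rfl⟩, h1, h⟩
    have e2 : (z t).2.2.2 ≠ 2 := fun h => h3 ⟨_, ⟨t, ht, rfl⟩, h1, h⟩
    revert e1 e2
    generalize (z t).2.2.2 = c
    revert c
    decide
  refine ⟨hm, ?_⟩
  have hlt := (mlev (y '' I)).isLt
  by_cases h0 : (mlev (x '' I)).val = 0
  · left
    have hb : ∀ t ∈ I, (x t).2.2.1 = mlev (x '' I) → (x t).2.2.2 = 0 ∧ (y t).2.2.2 = 0 ∧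
        (y t).1 = (x t).1 ∧ R (y t).2.1 := by
      intro t ht h1
      have e1 := congrArg Fin.val h1
      rcases (hxy t ht).2 with h | h | h
      · exact h.2.2
      · omega
      · omega
    have e1 : (mlev (y '' I)).val ≠ r + 2 := by omega
    have e2 : (mlev (x '' I)).val ≠ r + 2 := by omega
    have e3 : (mlev (y '' I)).val ≠ 0 := by omega
    simp only [lift, if_neg e1, if_neg e2, if_neg e3, if_pos h0]
    refine ⟨h0, trivial, hC0 x (fun t ht h => (hb t ht h).1),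
      hC0 y (fun t ht h => (hb t ht ((hI' t ht).1 h)).2.1),
      (hA (fun t ht h => (hb t ht h).2.2.1)).2,
      hR y (fun t ht h => (hb t ht ((hI' t ht).1 h)).2.2.2)⟩
  right
  by_cases h1 : (mlev (x '' I)).val = r + 1
  · left
    have hp : ∀ v ∈ x '' I, v.2.2.1 = mlev (x '' I) := by
      rintro _ ⟨t, ht, rfl⟩
      have e1 : (mlev (x '' I)).val ≤ (x t).2.2.1.val := (mlev_spec _ hS).2 _ ⟨t, ht, rfl⟩
      have e2 := (hxy t ht).1
      have e3 := (y t).2.2.1.isLt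
      rw [Fin.ext_iff]
      omega
    have hb : ∀ t ∈ I, (x t).2.2.2 = 0 ∧ (y t).2.2.2 = 0 ∧ (y t).2.1 = (x t).2.1 ∧
        (y t).1 = 0 ∧ R (x t).2.1 := by
      intro t ht
      have e1 := congrArg Fin.val (hp _ ⟨t, ht, rfl⟩)
      rcases (hxy t ht).2 with h | h | h
      · omega
      · exact h.2
      · omega
    have e1 : (mlev (y '' I)).val = r + 2 := by omega
    have e3 : (mlev (y '' I)).val ≠ 0 := by omega
    simp only [lift, if_pos e1, if_neg h0, if_neg e3]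
    refine ⟨h1, hC0 x (fun t ht _ => (hb t ht).1), hC0 y (fun t ht _ => (hb t ht).2.1), ?_,
      trivial, hR x (fun t ht _ => (hb t ht).2.2.2.2)⟩
    unfold valR
    rw [if_pos hp, if_pos (hpure.2 hp)]
    funext i
    exact hdep _ _ (fun t ht => congrFun (hb t ht).2.2.1 i)
  right
  have hb : ∀ t ∈ I, (x t).2.2.1 = mlev (x '' I) → (y t).1 = (x t).1 ∧ (y t).2.1 = (x t).2.1 ∧
      R (x t).2.1 ∧ (x t).2.2.2 ≠ 1 ∧ (y t).2.2.2 ≠ 2 ∧ ((x t).2.2.2 = 0 → (y t).2.2.2 = 0 →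
        ∀ i, lv i + 1 = (x t).2.2.1.val → (x t).2.1 i = (x t).1) := by
    intro t ht h2
    have e1 := congrArg Fin.val h2
    rcases (hxy t ht).2 with h | h | h
    · omega
    · omega
    · exact h.2.2
  have e1 : (mlev (y '' I)).val ≠ r + 2 := by omega
  have e2 : (mlev (x '' I)).val ≠ r + 2 := by omega
  have e3 : (mlev (y '' I)).val ≠ 0 := by omega
  simp only [lift, if_neg e1, if_neg e2, if_neg e3, if_neg h0]
  obtain ⟨hA1, hA2⟩ := hA (fun t ht h => (hb t ht h).1)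
  refine ⟨by omega, by omega, hA2, ?_, hR x (fun t ht h => (hb t ht h).2.2.1), ?_, ?_, ?_⟩
  · unfold valR
    by_cases hp : ∀ v ∈ x '' I, v.2.2.1 = mlev (x '' I)
    · rw [if_pos hp, if_pos (hpure.2 hp)]
      funext i
      exact hdep _ _ (fun t ht => congrFun (hb t ht (hp _ ⟨t, ht, rfl⟩)).2.1 i)
    · rw [if_neg hp, if_neg (fun h' => hp (hpure.1 h'))]
      unfold selR
      rw [hA1]
      congr 1
      funext ρ
      apply propext
      constructor
      · rintro ⟨_, ⟨t, ht, rfl⟩, h2, h3, rfl⟩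
        have h4 := hb t ht ((hI' t ht).1 h2)
        exact ⟨_, ⟨t, ht, rfl⟩, (hI' t ht).1 h2, h4.1 ▸ h3, h4.2.1.symm⟩
      · rintro ⟨_, ⟨t, ht, rfl⟩, h2, h3, rfl⟩
        have h4 := hb t ht h2
        exact ⟨_, ⟨t, ht, rfl⟩, (hI' t ht).2 h2, h4.1.symm ▸ h3, h4.2.1⟩
  · unfold valC
    rw [if_neg]
    · split_ifs <;> decide
    · rintro ⟨_, ⟨t, ht, rfl⟩, h2, h3⟩
      exact (hb t ht h2).2.2.2.1 h3
  · unfold valC
    split_ifs with h2 h3
    · decide
    · obtain ⟨_, ⟨t, ht, rfl⟩, h4, h5⟩ := h3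
      exact absurd h5 (hb t ht ((hI' t ht).1 h4)).2.2.2.2.1
    · decide
  · intro h2 h3 i hi
    have hdir : ∀ t ∈ I, (x t).2.2.1 = mlev (x '' I) → (x t).2.1 i = (x t).1 := by
      intro t ht h4
      exact (hb t ht h4).2.2.2.2.2 (hC1 x h2 t ht h4) (hC1 y h3 t ht ((hI' t ht).2 h4)) i
        (by rw [h4]; exact hi)
    unfold valR valA
    split_ifs with hp
    · exact hdep _ _ (fun t ht => hdir t ht (hp _ ⟨t, ht, rfl⟩))
    · obtain ⟨_, ⟨t, ht, rfl⟩, h4, h5, h6⟩ := sel_spec _ hS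
      rw [← h5, ← h6]
      exact hdir t ht h4

end Pool.Agent.H.MP_64a558_lc
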